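import Pool.Agent.Helper75.SD.Values

/-!
# MP_28cd81_al: semidistributive lattices not embeddable into algebraic spatial lattices

The questions Q1 and Q2 have the answer yes: there is one semidistributive lattice `L` which is
locally finite, such that every lattice in the variety of `L` is semidistributive, and such that no
algebraic spatial lattice in the variety of `L` has a sublattice isomorphic to `L`.

The lattice: the closed subsets of `{xi n : n ∈ ℕ} ∪ {b, k, g, c, p, y, m}`, where a set is closed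
if it obeys the rules `xi n → b`, `p → F`, `m → p`, `g → k`, `{b, g} → F`, `{b, y} → F`,
`F ∪ {c} → p`, `{p, y} → m`, `{k, m} → g`, `{k, y} → g`, with `F = {xi n : n ∈ ℕ}`.
-/

namespace Pool.Agent.Results.MP_28cd81_al.NoSpatialExtension

open Pool.Agent.Helper75.SD

/-- A lattice is semidistributive if it satisfies both semidistributive laws. -/
def IsSemidistributive (K : Type*) [Lattice K] : Prop :=
  (∀ x y z : K, x ⊔ y = x ⊔ z → x ⊔ y = x ⊔ (y ⊓ z)) ∧
  (∀ x y z : K, x ⊓ y = x ⊓ z → x ⊓ y = x ⊓ (y ⊔ z))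

/-- A lattice is locally finite if the sublattice generated by each finite subset is finite. -/
def IsLocallyFinite (K : Type*) [Lattice K] : Prop :=
  ∀ s : Set K, s.Finite → (latticeClosure s).Finite

/-- Lattice terms in the variables `x_0, x_1, x_2, …`. -/
inductive LTerm : Type
  | var (n : ℕ) : LTerm
  | sup (s t : LTerm) : LTerm
  | inf (s t : LTerm) : LTerm

/-- The value of a lattice term at the values `f n` of the variables. -/
def LTerm.eval {K : Type*} [Lattice K] (f : ℕ → K) : LTerm → K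
  | .var n => f n
  | .sup s t => s.eval f ⊔ t.eval f
  | .inf s t => s.eval f ⊓ t.eval f

/-- `K` belongs to the variety of lattices generated by `A`: every lattice identity `s = t` which
holds in `A` holds in `K`. -/
def InVariety (A K : Type*) [Lattice A] [Lattice K] : Prop :=
  ∀ s t : LTerm, (∀ f : ℕ → A, s.eval f = t.eval f) → ∀ f : ℕ → K, s.eval f = t.eval f

/-- `p` is completely join-irreducible: `p = ⋁ X` implies `p ∈ X`. -/
def IsCompletelyJoinIrreducible {K : Type*} [CompleteLattice K] (p : K) : Prop :=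
  ∀ X : Set K, p = sSup X → p ∈ X

/-- A complete lattice is spatial if every element is a join of completely join-irreducible
elements. -/
def IsSpatial (K : Type*) [CompleteLattice K] : Prop :=
  ∀ a : K, ∃ X : Set K, (∀ p ∈ X, IsCompletelyJoinIrreducible p) ∧ a = sSup X

/-! ### Terms -/

instance : Max LTerm := ⟨LTerm.sup⟩

instance : Min LTerm := ⟨LTerm.inf⟩

theorem eval_sup {K : Type*} [Lattice K] (f : ℕ → K) (s t : LTerm) :
    (s ⊔ t).eval f = s.eval f ⊔ t.eval f := rfl

theorem eval_inf {K : Type*} [Lattice K] (f : ℕ → K) (s t : LTerm) :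
    (s ⊓ t).eval f = s.eval f ⊓ t.eval f := rfl

theorem eval_dn {K : Type*} [Lattice K] (f : ℕ → K) (x : LTerm) : ∀ (n : ℕ) (y z : LTerm),
    (dn x y z n).eval f = dn (x.eval f) (y.eval f) (z.eval f) n := by
  intro n
  induction n with
  | zero => exact fun y z => rfl
  | succ n ih =>
    intro y z
    change y.eval f ⊓ (x.eval f ⊔ (dn x z y n).eval f) = _
    rw [ih z y]
    rfl

theorem eval_up {K : Type*} [Lattice K] (f : ℕ → K) (x : LTerm) : ∀ (n : ℕ) (y z : LTerm),
    (up x y z n).eval f = up (x.eval f) (y.eval f) (z.eval f) n := by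
  intro n
  induction n with
  | zero => exact fun y z => rfl
  | succ n ih =>
    intro y z
    change y.eval f ⊔ (x.eval f ⊓ (up x z y n).eval f) = _
    rw [ih z y]
    rfl

/-! ### Semidistributivity -/

/-- A value for each variable. -/
def vals {K : Type*} (x y z : K) : ℕ → K
  | 0 => x
  | 1 => y
  | _ => z

theorem sdj_of_variety {K : Type*} [Lattice K] (h : InVariety L K) (x y z : K) :
    x ⊔ dn x y z 4 = x ⊔ (y ⊓ z) := by
  have := h (LTerm.var 0 ⊔ dn (LTerm.var 0) (LTerm.var 1) (LTerm.var 2) 4)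
    (LTerm.var 0 ⊔ (LTerm.var 1 ⊓ LTerm.var 2)) (fun f => by
      rw [eval_sup, eval_sup, eval_inf, eval_dn]; exact sdj _ _ _) (vals x y z)
  rw [eval_sup, eval_sup, eval_inf, eval_dn] at this
  exact this

theorem sdm_of_variety {K : Type*} [Lattice K] (h : InVariety L K) (x y z : K) :
    x ⊓ up x y z 4 = x ⊓ (y ⊔ z) := by
  have := h (LTerm.var 0 ⊓ up (LTerm.var 0) (LTerm.var 1) (LTerm.var 2) 4)
    (LTerm.var 0 ⊓ (LTerm.var 1 ⊔ LTerm.var 2)) (fun f => by
      rw [eval_inf, eval_inf, eval_sup, eval_up]; exact sdm _ _ _) (vals x y z)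
  rw [eval_inf, eval_inf, eval_sup, eval_up] at this
  exact this

theorem dn_eq {K : Type*} [Lattice K] {x : K} : ∀ (n : ℕ) {y z : K}, x ⊔ y = x ⊔ z →
    dn x y z n = y := by
  intro n
  induction n with
  | zero => exact fun _ => rfl
  | succ n ih =>
    intro y z h
    change y ⊓ (x ⊔ dn x z y n) = y
    rw [ih h.symm, ← h]
    exact inf_eq_left.2 le_sup_right

theorem up_eq {K : Type*} [Lattice K] {x : K} : ∀ (n : ℕ) {y z : K}, x ⊓ y = x ⊓ z →
    up x y z n = y := by
  intro n
  induction n with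
  | zero => exact fun _ => rfl
  | succ n ih =>
    intro y z h
    change y ⊔ (x ⊓ up x z y n) = y
    rw [ih h.symm, ← h]
    exact sup_eq_left.2 inf_le_right

theorem semi_of_variety {K : Type*} [Lattice K] (h : InVariety L K) : IsSemidistributive K := by
  constructor
  · intro x y z hxy
    rw [← sdj_of_variety h x y z, dn_eq 4 hxy]
  · intro x y z hxy
    rw [← sdm_of_variety h x y z, up_eq 4 hxy]

theorem inVariety_self (A : Type*) [Lattice A] : InVariety A A := fun _ _ h => h

/-! ### Local finiteness -/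

/-- The special points. -/
def special (X : L) : Fin 7 → Prop
  | 0 => Pt.b ∈ X
  | 1 => Pt.k ∈ X
  | 2 => Pt.g ∈ X
  | 3 => Pt.c ∈ X
  | 4 => Pt.p ∈ X
  | 5 => Pt.y ∈ X
  | 6 => Pt.m ∈ X

theorem locallyFinite : IsLocallyFinite L := by
  intro s hs
  -- two points `xi i`, `xi j` are equivalent if they lie in the same members of `s`
  let T : Set L := {X | ∀ i j : ℕ, (∀ A ∈ s, Pt.xi i ∈ A ↔ Pt.xi j ∈ A) →
    Pt.xi i ∈ X → Pt.xi j ∈ X}
  have hT : IsSublattice T := by
    refine ⟨fun X hX Y hY i j hij h => ?_, fun X hX Y hY i j hij h => ?_⟩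
    · rcases h with h | h | h
      · exact Or.inl (hX i j hij h)
      · exact Or.inr (Or.inl (hY i j hij h))
      · exact Or.inr (Or.inr h)
    · exact ⟨hX i j hij h.1, hY i j hij h.2⟩
  have hsT : s ⊆ T := fun A hA i j hij h => (hij A hA).1 h
  refine Set.Finite.subset ?_ (latticeClosure_min hsT hT)
  have : Finite s := hs
  let pat : ℕ → Set s := fun i => {A | Pt.xi i ∈ A.1}
  let code : L → Set (Set s) × (Fin 7 → Prop) := fun X => (pat '' {i | Pt.xi i ∈ X}, special X)
  refine Set.Finite.of_finite_image (f := code) (Set.toFinite _) ?_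
  intro X hX Y hY hXY
  have h1 : pat '' {i | Pt.xi i ∈ X} = pat '' {i | Pt.xi i ∈ Y} := congrArg Prod.fst hXY
  have h2 : special X = special Y := congrArg Prod.snd hXY
  have key : ∀ {X Y : L}, Y ∈ T → pat '' {i | Pt.xi i ∈ X} = pat '' {i | Pt.xi i ∈ Y} →
      ∀ n, Pt.xi n ∈ X → Pt.xi n ∈ Y := by
    intro X Y hY h n hn
    have : pat n ∈ pat '' {i | Pt.xi i ∈ Y} := by
      rw [← h]; exact ⟨n, hn, rfl⟩
    obtain ⟨i, hi, hin⟩ := this
    refine hY i n (fun A hA => ?_) hi
    have := congrArg (fun S : Set s => (⟨A, hA⟩ : s) ∈ S) hin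
    exact iff_of_eq this
  apply L.ext
  intro q
  cases q with
  | xi n => exact ⟨key hY h1 n, key hX h1.symm n⟩
  | b => exact iff_of_eq (congrFun h2 0)
  | k => exact iff_of_eq (congrFun h2 1)
  | g => exact iff_of_eq (congrFun h2 2)
  | c => exact iff_of_eq (congrFun h2 3)
  | p => exact iff_of_eq (congrFun h2 4)
  | y => exact iff_of_eq (congrFun h2 5)
  | m => exact iff_of_eq (congrFun h2 6)

/-! ### The splitting identity in the variety -/

/-- Nine values. -/
def vals9 {K : Type*} (x u v b k g c p y m : K) : ℕ → K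
  | 0 => x
  | 1 => u
  | 2 => v
  | 3 => b
  | 4 => k
  | 5 => g
  | 6 => c
  | 7 => p
  | 8 => y
  | _ => m

theorem split_of_variety {K : Type*} [Lattice K] (h : InVariety L K)
    (x u v b k g c p y m : K) :
    x ⊓ (tU u v b k g c p y m ⊔ tV u v b k g c p y m) =
      (x ⊓ tU u v b k g c p y m) ⊔ (x ⊓ tV u v b k g c p y m) :=
  h (LTerm.var 0 ⊓ (tU (LTerm.var 1) (LTerm.var 2) (LTerm.var 3) (LTerm.var 4) (LTerm.var 5)
        (LTerm.var 6) (LTerm.var 7) (LTerm.var 8) (LTerm.var 9) ⊔
      tV (LTerm.var 1) (LTerm.var 2) (LTerm.var 3) (LTerm.var 4) (LTerm.var 5)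
        (LTerm.var 6) (LTerm.var 7) (LTerm.var 8) (LTerm.var 9)))
    ((LTerm.var 0 ⊓ tU (LTerm.var 1) (LTerm.var 2) (LTerm.var 3) (LTerm.var 4) (LTerm.var 5)
        (LTerm.var 6) (LTerm.var 7) (LTerm.var 8) (LTerm.var 9)) ⊔
      (LTerm.var 0 ⊓ tV (LTerm.var 1) (LTerm.var 2) (LTerm.var 3) (LTerm.var 4) (LTerm.var 5)
        (LTerm.var 6) (LTerm.var 7) (LTerm.var 8) (LTerm.var 9)))
    (fun f => split (f 0) (f 1) (f 2) (f 3) (f 4) (f 5) (f 6) (f 7) (f 8) (f 9))
    (vals9 x u v b k g c p y m)

theorem map_tU {A K : Type*} [Lattice A] [Lattice K] (f : LatticeHom A K)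
    (u v b k g c p y m : A) :
    f (tU u v b k g c p y m) = tU (f u) (f v) (f b) (f k) (f g) (f c) (f p) (f y) (f m) := by
  simp only [tU, tR, tT, tP, tQ, map_sup, map_inf]

theorem map_tV {A K : Type*} [Lattice A] [Lattice K] (f : LatticeHom A K)
    (u v b k g c p y m : A) :
    f (tV u v b k g c p y m) = tV (f u) (f v) (f b) (f k) (f g) (f c) (f p) (f y) (f m) := by
  simp only [tV, tR, tT, tP, tQ, map_sup, map_inf]

theorem not_embeddable (K : Type*) [CompleteLattice K] (hV : InVariety L K)
    (hA : IsCompactlyGenerated K) (hS : IsSpatial K) (f : LatticeHom L K) :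
    ¬ Function.Injective f := by
  intro hf
  have hmono : Monotone f := OrderHomClass.mono f
  -- completely join-irreducible elements are compact
  have hcompact : ∀ q : K, IsCompletelyJoinIrreducible q → IsCompactElement q := by
    intro q hq
    obtain ⟨s, hs, hsq⟩ := hA.exists_sSup_eq q
    exact hs q (hq s hsq.symm)
  -- splitting
  have hsplit : ∀ (j : ℕ) (q : K), IsCompletelyJoinIrreducible q → q ≤ f i0 →
      q ≤ f (u0 j) ∨ q ≤ f (v0 j) := by
    intro j q hq hqi
    have h1 := split_of_variety hV q (f (u0 j)) (f (v0 j)) (f b0) (f k0) (f g0) (f c0) (f p0)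
      (f y0) (f m0)
    rw [← map_tU, ← map_tV, tU_val, tV_val, ← map_sup, uv_sup, inf_eq_left.2 hqi] at h1
    have h2 : q = sSup {q ⊓ f (u0 j), q ⊓ f (v0 j)} := by rw [sSup_pair]; exact h1
    rcases hq _ h2 with h | h
    · exact Or.inl (inf_eq_left.1 h.symm)
    · exact Or.inr (inf_eq_left.1 (Set.mem_singleton_iff.1 h).symm)
  -- a point below `p` but not below `F`
  obtain ⟨X, hX, hXp⟩ := hS (f p0)
  have hex : ∃ q ∈ X, ¬ q ≤ f i0 := by
    by_contra hcon
    have hle : f p0 ≤ f i0 := by
      rw [hXp]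
      refine sSup_le fun q hq => ?_
      by_contra hq'
      exact hcon ⟨q, hq, hq'⟩
    have h3 : f (p0 ⊓ i0) = f p0 := by rw [map_inf]; exact inf_eq_left.2 hle
    exact p_not_le_i (inf_eq_left.1 (hf h3))
  obtain ⟨q, hqX, hqi⟩ := hex
  have hqp : q ≤ f p0 := by rw [hXp]; exact le_sSup hqX
  obtain ⟨S, hS1, hS2⟩ := hS (f i0)
  -- a finite cover of the point
  have hcov : q ≤ sSup (insert (f c0) S) := by
    rw [sSup_insert, ← hS2, ← map_sup]
    exact le_trans hqp (hmono p_le_ci)
  obtain ⟨t, ht, hqt⟩ :=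
    (CompleteLattice.isCompactElement_iff_exists_le_sSup_of_le_sSup K q).1
      (hcompact q (hX q hqX)) _ hcov
  -- all but finitely many `j` are harmless
  have hbad : ∀ r ∈ S, {j : ℕ | ¬ r ≤ f (v0 j)}.Finite := by
    intro r hr
    apply Set.Subsingleton.finite
    intro i hi j hj
    by_contra hij
    have hri : r ≤ f i0 := by rw [hS2]; exact le_sSup hr
    have h1 := (hsplit i r (hS1 r hr) hri).resolve_right hi
    have h2 := (hsplit j r (hS1 r hr) hri).resolve_right hj
    have h3 : r ≤ f (u0 i ⊓ u0 j) := by rw [map_inf]; exact le_inf h1 h2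
    rw [uu_inf hij] at h3
    exact hi (le_trans h3 (hmono (b_le_v i)))
  have hfin : (⋃ r ∈ {r ∈ (t : Set K) | r ∈ S}, {j : ℕ | ¬ r ≤ f (v0 j)}).Finite := by
    refine Set.Finite.biUnion (Set.Finite.subset t.finite_toSet fun r hr => hr.1) ?_
    exact fun r hr => hbad r hr.2
  obtain ⟨j, hj⟩ := hfin.exists_notMem
  have hall : ∀ r ∈ t, r ∈ S → r ≤ f (v0 j) := by
    intro r hr hrS
    by_contra hcon
    exact hj (Set.mem_biUnion (⟨hr, hrS⟩ : r ∈ {r ∈ (t : Set K) | r ∈ S}) hcon)
  have hq1 : q ≤ f (c0 ⊔ v0 j) := by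
    refine le_trans hqt (Finset.sup_le fun r hr => ?_)
    rw [map_sup]
    rcases ht hr with h | h
    · rw [id, h]; exact le_sup_left
    · exact le_trans (hall r hr h) le_sup_right
  have hq2 : q ≤ f (p0 ⊓ (c0 ⊔ v0 j)) := by rw [map_inf]; exact le_inf hqp hq1
  rw [p_inf_cv] at hq2
  exact hqi (le_trans hq2 (hmono (v_le_i j)))

/-- There is a lattice `A` such that

* `A` is semidistributive and locally finite,
* every lattice in the variety generated by `A` is semidistributive,
* no complete lattice in the variety generated by `A` which is algebraic and spatial has a lattice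
  embedding of `A`. -/
theorem result.{u} : ∃ (A : Type) (_ : Lattice A),
    IsSemidistributive A ∧ IsLocallyFinite A ∧
    (∀ (K : Type u) (_ : Lattice K), InVariety A K → IsSemidistributive K) ∧
    (∀ (K : Type u) (_ : CompleteLattice K), InVariety A K → IsCompactlyGenerated K →
      IsSpatial K → ∀ f : LatticeHom A K, ¬ Function.Injective f) :=
  ⟨L, inferInstance, semi_of_variety (inVariety_self L), locallyFinite,
    fun _ _ h => semi_of_variety h, fun K _ hV hA hS f => not_embeddable K hV hA hS f⟩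

end Pool.Agent.Results.MP_28cd81_al.NoSpatialExtension
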